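import Mathlib
import Pool.Agent.W560.HP.Stm

/-! Moving the base point along the line: contact system. -/

set_option autoImplicit false

namespace Pool.Agent.W554.HP

open Finset Polynomial W560.HP

section
variable {A : Type*} [CommRing A]

lemma refl_lin (a : A) : reflect 1 (X + C a : A[X]) = 1 + C a * X := by
  rw [reflect_add, reflect_one_X, reflect_C, pow_one]

lemma deg_lin (a : A) : (X + C a : A[X]).natDegree ≤ 1 := by
  refine (natDegree_add_le _ _).trans ?_
  rw [natDegree_C]
  simp [natDegree_X_le]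

lemma refl_pow (a : A) (m : ℕ) : reflect m ((X + C a : A[X]) ^ m) = (1 + C a * X) ^ m := by
  induction m with
  | zero => simp
  | succ m ih =>
    rw [pow_succ, reflect_mul _ _ (natDegree_pow_le_of_le m (deg_lin a) |>.trans (by omega))
      (deg_lin a), ih, refl_lin, pow_succ]

lemma refl_g (m : ℕ) (r : ℕ → A) (j : ℕ) :
    reflect (m + 1) (g m r j) = (1 + C (r j) * X) ^ m * (1 + C (r (j + 1)) * X) := by
  unfold g
  rw [reflect_mul _ _ (natDegree_pow_le_of_le m (deg_lin (r j)) |>.trans (by omega))
      (deg_lin _), refl_pow, refl_lin]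

lemma deg_g (m : ℕ) (r : ℕ → A) (j : ℕ) : (g m r j).natDegree ≤ m + 1 := by
  unfold g
  refine natDegree_mul_le.trans ?_
  exact add_le_add (natDegree_pow_le_of_le m (deg_lin (r j)) |>.trans (by omega)) (deg_lin _)

lemma top_g (m : ℕ) (r : ℕ → A) (j : ℕ) : (g m r j).coeff (m + 1) = 1 := by
  have h := congrArg (fun P : A[X] => P.coeff 0) (refl_g m r j)
  simp only [coeff_reflect] at h
  rw [revAt_le (Nat.zero_le _), Nat.sub_zero] at h
  rw [h, mul_coeff_zero, coeff_zero_eq_eval_zero, coeff_zero_eq_eval_zero]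
  simp

/-- the reversed sum -/
lemma coeff_sum (m : ℕ) (r t : ℕ → A) (s : Finset ℕ) (k : ℕ) (hk : k ≤ m + 1) :
    (∑ j ∈ s, C (t j) * ((1 + C (r j) * X) ^ m * (1 + C (r (j + 1)) * X))).coeff k =
      ∑ j ∈ s, (g m r j).coeff (m + 1 - k) * t j := by
  rw [finsetSum_coeff]
  refine Finset.sum_congr rfl fun j _ => ?_
  rw [← refl_g, coeff_C_mul, coeff_reflect, revAt_le hk, mul_comm]

lemma coeff_sum_big (m : ℕ) (r t : ℕ → A) (s : Finset ℕ) (k : ℕ) (hk : m + 1 < k) :
    (∑ j ∈ s, C (t j) * ((1 + C (r j) * X) ^ m * (1 + C (r (j + 1)) * X))).coeff k = 0 := by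
  rw [finsetSum_coeff]
  refine Finset.sum_eq_zero fun j _ => ?_
  rw [← refl_g, coeff_C_mul, coeff_reflect, revAt_eq_self_of_lt hk,
    coeff_eq_zero_of_natDegree_lt (lt_of_le_of_lt (deg_g m r j) hk), mul_zero]

end

theorem line : S_LINE := by
  intro F _ m r t r' t' c hr hc hr' ht' hl
  set S : F[X] := ∑ j ∈ range (m + 2), C (t j) *
    ((1 + C (r j) * X) ^ m * (1 + C (r (j + 1)) * X)) with hS
  set S' : F[X] := ∑ j ∈ range (m + 2), C (t' j) *
    ((1 + C (r' j) * X) ^ m * (1 + C (r' (j + 1)) * X)) with hS'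
  set A := ∑ j ∈ range (m + 2), t j with hA
  set B := ∑ j ∈ range (m + 2), (g m r j).coeff m * t j with hB
  have e1 : S = C A + C B * X := by
    ext k
    rw [coeff_add, coeff_C, coeff_C_mul, coeff_X]
    rcases Nat.lt_or_ge (m + 1) k with h | h
    · rw [hS, coeff_sum_big m r t _ k h, if_neg (by omega), if_neg (by omega)]
      ring
    · rw [hS, coeff_sum m r t _ k h]
      rcases Nat.eq_zero_or_pos k with h0 | h0
      · subst h0
        rw [if_pos rfl, if_neg (by omega), mul_zero, add_zero, hA]
        refine Finset.sum_congr rfl fun j _ => ?_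
        rw [Nat.sub_zero, top_g, one_mul]
      · rcases Nat.lt_or_ge 1 k with h1 | h1
        · rw [if_neg (by omega), if_neg (by omega), hl _ (by omega)]
          ring
        · have : k = 1 := by omega
          subst this
          rw [if_neg (by omega), if_pos rfl, mul_one, zero_add, hB, Nat.add_sub_cancel]
  have e2 : S' = S.comp (X + C c) := by
    rw [hS, hS', Polynomial.sum_comp]
    refine Finset.sum_congr rfl fun j _ => ?_
    have key : ∀ i, (1 + C (r i) * X : F[X]).comp (X + C c) =
        C (1 + r i * c) * (1 + C (r' i) * X) := by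
      intro i
      have h1 : (1 + r i * c) * r' i = r i := by
        rw [hr' i]
        have := hc i
        field_simp
      have h2 : (C (1 + r i * c) * C (r' i) : F[X]) = C (r i) := by rw [← C_mul, h1]
      have h3 : (C (1 + r i * c) : F[X]) = 1 + C (r i) * C c := by
        rw [C_add, C_1, C_mul]
      rw [add_comp, one_comp, mul_comp, C_comp, X_comp]
      have h4 : (C (1 + r i * c) * (1 + C (r' i) * X) : F[X]) = C (1 + r i * c) +
          (C (1 + r i * c) * C (r' i)) * X := by ring
      rw [h4, h2, h3]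
      ring
    rw [mul_comp, mul_comp, pow_comp, C_comp, key, key, ht' j, C_mul, C_mul, C_pow, mul_pow]
    ring
  have e3 : S' = C (A + c * B) + C B * X := by
    rw [e2, e1, add_comp, mul_comp, C_comp, C_comp, X_comp, C_add, C_mul]
    ring
  constructor
  · intro l hl'
    have h := coeff_sum m r' t' (range (m + 2)) (m + 1 - l) (by omega)
    rw [← hS', e3, coeff_add, coeff_C, coeff_C_mul, coeff_X, if_neg (by omega),
      if_neg (by omega), mul_zero, add_zero] at h
    have h2 : m + 1 - (m + 1 - l) = l := by omega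
    rw [h2] at h
    exact h.symm
  · have h := coeff_sum m r' t' (range (m + 2)) 0 (by omega)
    rw [← hS', e3, coeff_add, coeff_C, coeff_C_mul, coeff_X, if_pos rfl, if_neg (by omega),
      mul_zero, add_zero, Nat.sub_zero] at h
    rw [h]
    refine Finset.sum_congr rfl fun j _ => ?_
    rw [top_g, one_mul]

end Pool.Agent.W554.HP
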